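import Mathlib

set_option autoImplicit false

/-!
# A planar digraph of digirth 4 whose star dichromatic number is exactly 3/2
-/

namespace Pool.Agent.Results.MP_ff0133_co.DigirthFour

/-- Adjacency in the underlying undirected graph. -/
def Und {V : Type} (D : Digraph V) (u v : V) : Prop := D.Adj u v ∨ D.Adj v u

/-- The underlying graph of `D` has a straight-line drawing in the plane without crossings: the
vertices are placed at distinct points `f v`, no vertex lies on the segment of an edge unless it is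
an end of this edge, and the segments of two different edges meet at most in a common end. -/
def StraightLinePlanar {V : Type} (D : Digraph V) : Prop :=
  ∃ f : V → ℝ × ℝ, Function.Injective f ∧
    (∀ u v w, Und D u v → f w ∈ segment ℝ (f u) (f v) → w = u ∨ w = v) ∧
    (∀ u v x y, Und D u v → Und D x y → ¬ ((u = x ∧ v = y) ∨ (u = y ∧ v = x)) →
      ∀ p, p ∈ segment ℝ (f u) (f v) → p ∈ segment ℝ (f x) (f y) →
        ∃ w, (w = u ∨ w = v) ∧ (w = x ∨ w = y) ∧ p = f w)

/-- The lengths of the directed cycles of `D`: a directed cycle of length `l ≥ 1` is given by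
distinct vertices `v i`, `i ∈ ℤ_l`, with an arc from `v i` to `v (i + 1)` for every `i`. -/
def cycleLengths {V : Type} (D : Digraph V) : Set ℕ :=
  {l | 1 ≤ l ∧ ∃ v : ZMod l → V, Function.Injective v ∧ ∀ i, D.Adj (v i) (v (i + 1))}

/-- `D` has digirth `g`: the shortest directed cycle has length `g`. -/
def HasDigirth {V : Type} (D : Digraph V) (g : ℕ) : Prop := IsLeast (cycleLengths D) g

/-- The vertex set `S` is acyclic: the subdigraph induced on `S` has no directed cycle (no closed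
directed walk of positive length). -/
def Acyclic {V : Type} (D : Digraph V) (S : Set V) : Prop :=
  ∀ v, ¬ Relation.TransGen (fun a b => D.Adj a b ∧ a ∈ S ∧ b ∈ S) v v

/-- `c : V → ℤ_k` is an acyclic `(k, d)`-colouring of `D`: for every `i ∈ ℤ_k` the set
`c⁻¹({i, i + 1, …, i + d - 1})` is acyclic. -/
def IsAcyclicColouring {V : Type} (D : Digraph V) (k d : ℕ) (c : V → ZMod k) : Prop :=
  ∀ i : ZMod k, Acyclic D {v | ∃ j : ℕ, j < d ∧ c v = i + (j : ZMod k)}

/-- The set of all ratios `k / d` with `k ≥ d ≥ 1` for which `D` has an acyclic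
`(k, d)`-colouring.  The star dichromatic number of `D` is the infimum of this set. -/
def ratios {V : Type} (D : Digraph V) : Set ℝ :=
  {q | ∃ k d : ℕ, 1 ≤ d ∧ d ≤ k ∧ q = (k : ℝ) / d ∧
    ∃ c : V → ZMod k, IsAcyclicColouring D k d c}

/-- The star dichromatic number. -/
noncomputable def starDichromaticNumber {V : Type} (D : Digraph V) : ℝ := sInf (ratios D)

/-! ### Drawings -/

/-- Orientation determinant. -/
def orient (p q r : ℝ × ℝ) : ℝ := (q.1 - p.1) * (r.2 - p.2) - (q.2 - p.2) * (r.1 - p.1)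

lemma orient_segment {p q r s x : ℝ × ℝ} (hx : x ∈ segment ℝ r s) :
    ∃ t : ℝ, 0 ≤ t ∧ t ≤ 1 ∧ x = (1 - t) • r + t • s ∧
      orient p q x = (1 - t) * orient p q r + t * orient p q s := by
  obtain ⟨a, b, ha, hb, hab, rfl⟩ := hx
  refine ⟨b, hb, by linarith, ?_, ?_⟩
  · rw [← hab]; congr 2; ring
  · have : a = 1 - b := by linarith
    subst this
    simp only [orient, Prod.fst_add, Prod.snd_add, Prod.smul_fst, Prod.smul_snd, smul_eq_mul]
    ring

lemma orient_left (p q : ℝ × ℝ) : orient p q p = 0 := by simp [orient]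

lemma orient_right (p q : ℝ × ℝ) : orient p q q = 0 := by simp [orient]; ring

lemma orient_mem {p q x : ℝ × ℝ} (hx : x ∈ segment ℝ p q) : orient p q x = 0 := by
  obtain ⟨t, -, -, -, h⟩ := orient_segment (p := p) (q := q) hx
  rw [h, orient_left, orient_right]; ring

lemma seg_disjoint {p q r s x : ℝ × ℝ} (h : 0 < orient p q r * orient p q s)
    (h1 : x ∈ segment ℝ p q) (h2 : x ∈ segment ℝ r s) : False := by
  have h0 := orient_mem h1
  obtain ⟨t, ht0, ht1, -, h3⟩ := orient_segment (p := p) (q := q) h2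
  rw [h0] at h3
  rcases pos_and_pos_or_neg_and_neg_of_mul_pos h with ⟨ha, hb⟩ | ⟨ha, hb⟩
  · rcases eq_or_lt_of_le ht0 with h4 | h4
    · rw [← h4] at h3; linarith
    · have := mul_pos h4 hb
      have := mul_nonneg (sub_nonneg.mpr ht1) ha.le
      linarith
  · rcases eq_or_lt_of_le ht0 with h4 | h4
    · rw [← h4] at h3; linarith
    · have := mul_neg_of_pos_of_neg h4 hb
      have := mul_nonpos_of_nonneg_of_nonpos (sub_nonneg.mpr ht1) ha.le
      linarith

lemma seg_share {p q r x : ℝ × ℝ} (h : orient p q r ≠ 0)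
    (h1 : x ∈ segment ℝ p q) (h2 : x ∈ segment ℝ p r) : x = p := by
  have h0 := orient_mem h1
  obtain ⟨t, ht0, ht1, hx, h3⟩ := orient_segment (p := p) (q := q) h2
  rw [h0, orient_left] at h3
  have ht : t = 0 := by
    rcases mul_eq_zero.mp (show t * orient p q r = 0 by linarith) with h4 | h4
    · exact h4
    · exact absurd h4 h
  rw [hx, ht]; simp

/-- Integer orientation determinant. -/
def orientZ (p q r : ℤ × ℤ) : ℤ := (q.1 - p.1) * (r.2 - p.2) - (q.2 - p.2) * (r.1 - p.1)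

/-- Integer points seen in the plane. -/
def toR (p : ℤ × ℤ) : ℝ × ℝ := ((p.1 : ℝ), (p.2 : ℝ))

lemma orient_toR (p q r : ℤ × ℤ) : orient (toR p) (toR q) (toR r) = (orientZ p q r : ℤ) := by
  simp [orient, orientZ, toR]

lemma toR_injective : Function.Injective toR := by
  rintro ⟨a, b⟩ ⟨c, d⟩ h
  simp only [toR, Prod.mk.injEq, Int.cast_inj] at h
  exact Prod.ext h.1 h.2

/-- A criterion for straight-line planarity in terms of integer points. -/
lemma planar_of_int {V : Type} (D : Digraph V) (P : V → ℤ × ℤ)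
    (hinj : Function.Injective P)
    (hloop : ∀ v, ¬ D.Adj v v)
    (h1 : ∀ u v w, Und D u v → w ≠ u → w ≠ v → orientZ (P u) (P v) (P w) ≠ 0)
    (h2 : ∀ u v x y, Und D u v → Und D x y → u ≠ x → u ≠ y → v ≠ x → v ≠ y →
      0 < orientZ (P u) (P v) (P x) * orientZ (P u) (P v) (P y) ∨
      0 < orientZ (P x) (P y) (P u) * orientZ (P x) (P y) (P v)) :
    StraightLinePlanar D := by
  have hne : ∀ {u v}, Und D u v → u ≠ v := by
    rintro u v (h | h) rfl
    · exact hloop _ h
    · exact hloop _ h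
  have hsymm : ∀ {u v}, Und D u v → Und D v u := fun h => h.symm
  have hshare : ∀ u v y, Und D u v → Und D u y → v ≠ y → ∀ p,
      p ∈ segment ℝ (toR (P u)) (toR (P v)) → p ∈ segment ℝ (toR (P u)) (toR (P y)) →
      p = toR (P u) := by
    intro u v y huv huy hvy p hp1 hp2
    refine seg_share ?_ hp1 hp2
    rw [orient_toR]
    exact_mod_cast h1 u v y huv (hne huy).symm hvy.symm
  refine ⟨fun v => toR (P v), toR_injective.comp hinj, ?_, ?_⟩
  · intro u v w huv hw
    by_contra hcon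
    push Not at hcon
    have := orient_mem hw
    rw [orient_toR] at this
    exact h1 u v w huv hcon.1 hcon.2 (by exact_mod_cast this)
  · intro u v x y huv hxy hdiff p hp1 hp2
    have huv' := hne huv
    have hxy' := hne hxy
    by_cases hux : u = x
    · subst hux
      have hvy : v ≠ y := fun h => hdiff (Or.inl ⟨rfl, h⟩)
      exact ⟨u, Or.inl rfl, Or.inl rfl, hshare u v y huv hxy hvy p hp1 hp2⟩
    by_cases huy : u = y
    · subst huy
      have hvx : v ≠ x := fun h => hdiff (Or.inr ⟨rfl, h⟩)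
      rw [segment_symm] at hp2
      exact ⟨u, Or.inl rfl, Or.inr rfl, hshare u v x huv (hsymm hxy) hvx p hp1 hp2⟩
    by_cases hvx : v = x
    · subst hvx
      rw [segment_symm] at hp1
      exact ⟨v, Or.inr rfl, Or.inl rfl, hshare v u y (hsymm huv) hxy huy p hp1 hp2⟩
    by_cases hvy : v = y
    · subst hvy
      rw [segment_symm] at hp1 hp2
      exact ⟨v, Or.inr rfl, Or.inr rfl,
        hshare v u x (hsymm huv) (hsymm hxy) hux p hp1 hp2⟩
    exfalso
    rcases h2 u v x y huv hxy hux huy hvx hvy with h | h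
    · refine seg_disjoint ?_ hp1 hp2
      rw [orient_toR, orient_toR]
      exact_mod_cast h
    · refine seg_disjoint ?_ hp2 hp1
      rw [orient_toR, orient_toR]
      exact_mod_cast h

/-! ### The digraph -/

/-- The arcs of the digraph: the hub is `0`; the vertices `1, 2, 3, 4` form a directed cycle `Z`;
inside the region between the hub and the arc from `z` to `z'` of `Z` there are two vertices
`p, q` with arcs `z → p`, `z' → p`, `p → q`, `q → 0`. -/
def arcs : List (Fin 13 × Fin 13) :=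
  [(0, 1), (1, 5), (2, 5), (5, 9), (9, 0), (1, 2),
   (0, 2), (2, 6), (3, 6), (6, 10), (10, 0), (2, 3),
   (0, 3), (3, 7), (4, 7), (7, 11), (11, 0), (3, 4),
   (0, 4), (4, 8), (1, 8), (8, 12), (12, 0), (4, 1)]

/-- The digraph. -/
def D : Digraph (Fin 13) where
  Adj u v := (u, v) ∈ arcs

instance : DecidableRel D.Adj := fun u v => inferInstanceAs (Decidable ((u, v) ∈ arcs))

/-- Positions of the vertices. -/
def pos : Fin 13 → ℤ × ℤ :=
  ![(0, 0), (8, -1), (-1, 8), (-8, -1), (-1, -8), (3, 3), (-2, 2), (-2, -2), (3, -3), (2, 1),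
    (-1, 2), (-1, -2), (0, -1)]

lemma orientZ_swap (p q r : ℤ × ℤ) : orientZ q p r = - orientZ p q r := by
  simp only [orientZ]; ring

lemma check1 : ∀ e ∈ arcs, ∀ w, w ≠ e.1 → w ≠ e.2 → orientZ (pos e.1) (pos e.2) (pos w) ≠ 0 := by
  decide +kernel

lemma check2 : ∀ e ∈ arcs, ∀ f ∈ arcs, e.1 ≠ f.1 → e.1 ≠ f.2 → e.2 ≠ f.1 → e.2 ≠ f.2 →
    0 < orientZ (pos e.1) (pos e.2) (pos f.1) * orientZ (pos e.1) (pos e.2) (pos f.2) ∨
    0 < orientZ (pos f.1) (pos f.2) (pos e.1) * orientZ (pos f.1) (pos f.2) (pos e.2) := by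
  decide +kernel

lemma no_loop : ∀ v, ¬ D.Adj v v := by decide +kernel

lemma planar : StraightLinePlanar D := by
  refine planar_of_int D pos (by decide +kernel) no_loop ?_ ?_
  · rintro u v w (h | h) h1 h2
    · exact check1 (u, v) h w h1 h2
    · have := check1 (v, u) h w h2 h1
      rw [orientZ_swap] at this
      simpa using this
  · have sw : ∀ a b x y : ℤ × ℤ, orientZ b a x * orientZ b a y = orientZ a b x * orientZ a b y := by
      intro a b x y
      rw [orientZ_swap a b x, orientZ_swap a b y]; ring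
    rintro u v x y (h | h) (h' | h') h1 h2 h3 h4
    · exact check2 (u, v) h (x, y) h' h1 h2 h3 h4
    · have := check2 (u, v) h (y, x) h' h2 h1 h4 h3
      simp only at this
      rw [sw (pos x) (pos y)] at this
      rw [mul_comm (orientZ (pos u) (pos v) (pos y))] at this
      exact this
    · have := check2 (v, u) h (x, y) h' h3 h4 h1 h2
      simp only at this
      rw [sw (pos u) (pos v)] at this
      rw [mul_comm (orientZ (pos x) (pos y) (pos v))] at this
      exact this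
    · have := check2 (v, u) h (y, x) h' h4 h3 h2 h1
      simp only at this
      rw [sw (pos u) (pos v), sw (pos x) (pos y)] at this
      rw [mul_comm (orientZ (pos u) (pos v) (pos y)), mul_comm (orientZ (pos x) (pos y) (pos v))]
        at this
      exact this

/-- A directed 4-cycle. -/
def zc : ZMod 4 → Fin 13 := ![1, 2, 3, 4]

lemma digirth : HasDigirth D 4 := by
  constructor
  · refine ⟨by norm_num, zc, ?_, ?_⟩
    · exact (by decide : ∀ a b : ZMod 4, zc a = zc b → a = b)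
    · exact (by decide : ∀ i : ZMod 4, D.Adj (zc i) (zc (i + 1)))
  · rintro l ⟨hl, v, hv, hadj⟩
    by_contra hlt
    push Not at hlt
    interval_cases l
    · exact no_loop _ (by have := hadj 0; rwa [show (0 + 1 : ZMod 1) = 0 from rfl] at this)
    · have h0 := hadj 0
      have h1 := hadj 1
      rw [show (0 + 1 : ZMod 2) = 1 from rfl] at h0
      rw [show (1 + 1 : ZMod 2) = 0 from rfl] at h1
      exact (by decide +kernel : ∀ a b, D.Adj a b → ¬ D.Adj b a) _ _ h0 h1
    · have h0 := hadj 0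
      have h1 := hadj 1
      have h2 := hadj 2
      rw [show (0 + 1 : ZMod 3) = 1 from rfl] at h0
      rw [show (1 + 1 : ZMod 3) = 2 from rfl] at h1
      rw [show (2 + 1 : ZMod 3) = 0 from rfl] at h2
      exact (by decide +kernel : ∀ a b, D.Adj a b → ∀ e, D.Adj b e → ¬ D.Adj e a) _ _ h0 _ h1 h2

/-! ### No colouring with ratio below 3/2 -/

section lower

variable {k d : ℕ} {c : Fin 13 → ZMod k}

/-- The forward distance from the colour of the hub. -/
def del (c : Fin 13 → ZMod k) (x : Fin 13) : ℕ := (c x - c 0).val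

/-- A vertex whose forward distance from the hub lies in `[lo, lo + d)` is in the window starting
at `c 0 + lo`. -/
lemma mem_win (hk : 1 ≤ k) {lo : ℕ} {x : Fin 13} (h1 : lo ≤ del c x) (h2 : del c x < lo + d) :
    ∃ j : ℕ, j < d ∧ c x = (c 0 + (lo : ZMod k)) + (j : ZMod k) := by
  haveI : NeZero k := ⟨by omega⟩
  refine ⟨del c x - lo, by omega, ?_⟩
  rw [Nat.cast_sub h1, del, ZMod.natCast_val, ZMod.cast_id]
  ring

/-- The same for windows passing through the colour of the hub. -/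
lemma mem_win' (hk : 1 ≤ k) {lo : ℕ} {x : Fin 13} (h1 : lo ≤ del c x + k)
    (h2 : del c x + k < lo + d) :
    ∃ j : ℕ, j < d ∧ c x = (c 0 + (lo : ZMod k)) + (j : ZMod k) := by
  haveI : NeZero k := ⟨by omega⟩
  refine ⟨del c x + k - lo, by omega, ?_⟩
  rw [Nat.cast_sub h1, Nat.cast_add, ZMod.natCast_self, del, ZMod.natCast_val, ZMod.cast_id]
  ring

/-- A vertex is in the window starting at `c 0 + lo`, where `lo ≤ k`, as soon as its forward
distance is in the corresponding range. -/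
lemma mem_win'' (hk : 1 ≤ k) {lo : ℕ} {x : Fin 13}
    (h : (lo ≤ del c x ∧ del c x < lo + d) ∨ (lo ≤ del c x + k ∧ del c x + k < lo + d)) :
    ∃ j : ℕ, j < d ∧ c x = (c 0 + (lo : ZMod k)) + (j : ZMod k) := by
  rcases h with h | h
  · exact mem_win hk h.1 h.2
  · exact mem_win' hk h.1 h.2

lemma del_lt (hk : 1 ≤ k) (x : Fin 13) : del c x < k := by
  haveI : NeZero k := ⟨by omega⟩
  exact ZMod.val_lt _

lemma del_hub : del c 0 = 0 := by simp [del]

/-- No directed 4-cycle lies in a window. -/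
lemma no_four (hc : IsAcyclicColouring D k d c) (i : ZMod k) {a b e f : Fin 13}
    (hab : D.Adj a b) (hbe : D.Adj b e) (hef : D.Adj e f) (hfa : D.Adj f a)
    (ha : ∃ j : ℕ, j < d ∧ c a = i + (j : ZMod k)) (hb : ∃ j : ℕ, j < d ∧ c b = i + (j : ZMod k))
    (he : ∃ j : ℕ, j < d ∧ c e = i + (j : ZMod k))
    (hf : ∃ j : ℕ, j < d ∧ c f = i + (j : ZMod k)) : False :=
  hc i a ((((Relation.TransGen.single ⟨hab, ha, hb⟩).tail ⟨hbe, hb, he⟩).tail
    ⟨hef, he, hf⟩).tail ⟨hfa, hf, ha⟩)

/-- The forward distances of the other three vertices of a directed 4-cycle through the hub: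
one is in `[1, s]`, one is in `[s + 1, 2 s]` and one is in `[k - s, k - 1]`, where `s = k - d`. -/
lemma hits {s : ℕ} (hk : 1 ≤ k) (hs : k = d + s) (hs3 : 3 * s < k)
    (hc : IsAcyclicColouring D k d c) {a b e : Fin 13}
    (h0a : D.Adj 0 a) (hab : D.Adj a b) (hbe : D.Adj b e) (he0 : D.Adj e 0) :
    ((1 ≤ del c a ∧ del c a ≤ s) ∨ (1 ≤ del c b ∧ del c b ≤ s) ∨ (1 ≤ del c e ∧ del c e ≤ s)) ∧
    ((s + 1 ≤ del c a ∧ del c a ≤ 2 * s) ∨ (s + 1 ≤ del c b ∧ del c b ≤ 2 * s) ∨
      (s + 1 ≤ del c e ∧ del c e ≤ 2 * s)) ∧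
    (k ≤ del c a + s ∨ k ≤ del c b + s ∨ k ≤ del c e + s) := by
  have la := del_lt (c := c) hk a
  have lb := del_lt (c := c) hk b
  have le := del_lt (c := c) hk e
  have l0 : del c 0 = 0 := del_hub
  refine ⟨?_, ?_, ?_⟩
  · by_contra hcon
    push Not at hcon
    obtain ⟨ca, cb, ce⟩ := hcon
    refine no_four hc (c 0 + ((s + 1 : ℕ) : ZMod k)) h0a hab hbe he0
      (mem_win'' hk ?_) (mem_win'' hk ?_) (mem_win'' hk ?_) (mem_win'' hk ?_) <;> omega
  · by_contra hcon
    push Not at hcon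
    obtain ⟨ca, cb, ce⟩ := hcon
    refine no_four hc (c 0 + ((2 * s + 1 : ℕ) : ZMod k)) h0a hab hbe he0
      (mem_win'' hk ?_) (mem_win'' hk ?_) (mem_win'' hk ?_) (mem_win'' hk ?_) <;> omega
  · by_contra hcon
    push Not at hcon
    obtain ⟨ca, cb, ce⟩ := hcon
    refine no_four hc (c 0 + ((0 : ℕ) : ZMod k)) h0a hab hbe he0
      (mem_win'' hk ?_) (mem_win'' hk ?_) (mem_win'' hk ?_) (mem_win'' hk ?_) <;> omega

/-- Two triples sharing two members, each meeting the three ranges, have third members in the same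
range. -/
lemma same {k s x x' y w : ℕ} (hs : 3 * s < k)
    (h : ((1 ≤ x ∧ x ≤ s) ∨ (1 ≤ y ∧ y ≤ s) ∨ (1 ≤ w ∧ w ≤ s)) ∧
      ((s + 1 ≤ x ∧ x ≤ 2 * s) ∨ (s + 1 ≤ y ∧ y ≤ 2 * s) ∨ (s + 1 ≤ w ∧ w ≤ 2 * s)) ∧
      (k ≤ x + s ∨ k ≤ y + s ∨ k ≤ w + s))
    (h' : ((1 ≤ x' ∧ x' ≤ s) ∨ (1 ≤ y ∧ y ≤ s) ∨ (1 ≤ w ∧ w ≤ s)) ∧
      ((s + 1 ≤ x' ∧ x' ≤ 2 * s) ∨ (s + 1 ≤ y ∧ y ≤ 2 * s) ∨ (s + 1 ≤ w ∧ w ≤ 2 * s)) ∧
      (k ≤ x' + s ∨ k ≤ y + s ∨ k ≤ w + s)) :
    ((1 ≤ x ∧ x ≤ s) ∧ (1 ≤ x' ∧ x' ≤ s)) ∨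
    ((s + 1 ≤ x ∧ x ≤ 2 * s) ∧ (s + 1 ≤ x' ∧ x' ≤ 2 * s)) ∨
    (k ≤ x + s ∧ k ≤ x' + s) := by
  obtain ⟨h1, h2, h3⟩ := h
  obtain ⟨h1', h2', h3'⟩ := h'
  rcases h1 with h1 | h1 | h1 <;> rcases h2 with h2 | h2 | h2 <;> rcases h3 with h3 | h3 | h3 <;>
    omega

lemma lower {s : ℕ} (hk : 1 ≤ k) (hs : k = d + s) (hs3 : 3 * s < k)
    (hc : IsAcyclicColouring D k d c) : False := by
  have H := @hits k d c s hk hs hs3 hc
  -- the eight 4-cycles through the hub
  have a1 := H (by decide : D.Adj 0 1) (by decide : D.Adj 1 5) (by decide : D.Adj 5 9)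
    (by decide : D.Adj 9 0)
  have b1 := H (by decide : D.Adj 0 2) (by decide : D.Adj 2 5) (by decide : D.Adj 5 9)
    (by decide : D.Adj 9 0)
  have a2 := H (by decide : D.Adj 0 2) (by decide : D.Adj 2 6) (by decide : D.Adj 6 10)
    (by decide : D.Adj 10 0)
  have b2 := H (by decide : D.Adj 0 3) (by decide : D.Adj 3 6) (by decide : D.Adj 6 10)
    (by decide : D.Adj 10 0)
  have a3 := H (by decide : D.Adj 0 3) (by decide : D.Adj 3 7) (by decide : D.Adj 7 11)
    (by decide : D.Adj 11 0)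
  have b3 := H (by decide : D.Adj 0 4) (by decide : D.Adj 4 7) (by decide : D.Adj 7 11)
    (by decide : D.Adj 11 0)
  have e1 := same hs3 a1 b1
  have e2 := same hs3 a2 b2
  have e3 := same hs3 a3 b3
  have l1 := del_lt (c := c) hk 1
  have l2 := del_lt (c := c) hk 2
  have l3 := del_lt (c := c) hk 3
  have l4 := del_lt (c := c) hk 4
  have key : (del c 1 ≤ s ∧ del c 2 ≤ s ∧ del c 3 ≤ s ∧ del c 4 ≤ s) ∨
      ((s + 1 ≤ del c 1 ∧ del c 1 ≤ 2 * s) ∧ (s + 1 ≤ del c 2 ∧ del c 2 ≤ 2 * s) ∧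
        (s + 1 ≤ del c 3 ∧ del c 3 ≤ 2 * s) ∧ (s + 1 ≤ del c 4 ∧ del c 4 ≤ 2 * s)) ∨
      (k ≤ del c 1 + s ∧ k ≤ del c 2 + s ∧ k ≤ del c 3 + s ∧ k ≤ del c 4 + s) := by
    rcases e1 with e1 | e1 | e1 <;> rcases e2 with e2 | e2 | e2 <;>
      rcases e3 with e3 | e3 | e3 <;> omega
  rcases key with h | h | h
  · refine no_four hc (c 0 + ((0 : ℕ) : ZMod k)) (by decide : D.Adj 1 2) (by decide : D.Adj 2 3)
      (by decide : D.Adj 3 4) (by decide : D.Adj 4 1)
      (mem_win'' hk ?_) (mem_win'' hk ?_) (mem_win'' hk ?_) (mem_win'' hk ?_) <;> omega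
  · refine no_four hc (c 0 + ((s + 1 : ℕ) : ZMod k)) (by decide : D.Adj 1 2)
      (by decide : D.Adj 2 3) (by decide : D.Adj 3 4) (by decide : D.Adj 4 1)
      (mem_win'' hk ?_) (mem_win'' hk ?_) (mem_win'' hk ?_) (mem_win'' hk ?_) <;> omega
  · refine no_four hc (c 0 + ((k - s : ℕ) : ZMod k)) (by decide : D.Adj 1 2)
      (by decide : D.Adj 2 3) (by decide : D.Adj 3 4) (by decide : D.Adj 4 1)
      (mem_win'' hk ?_) (mem_win'' hk ?_) (mem_win'' hk ?_) (mem_win'' hk ?_) <;> omega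

end lower

/-! ### A colouring with ratio 3/2 -/

/-- An acyclic `(3, 2)`-colouring: every directed cycle meets all three colours. -/
def col : Fin 13 → ZMod 3 := ![0, 0, 1, 2, 2, 1, 1, 1, 1, 2, 2, 2, 2]

/-- For every missing colour `m`, a potential increasing along the arcs between vertices of colour
different from `m`. -/
def pot : ZMod 3 → Fin 13 → ℕ :=
  ![![0, 0, 0, 1, 2, 1, 2, 3, 3, 2, 3, 4, 4],
    ![1, 4, 0, 2, 3, 0, 0, 0, 0, 0, 0, 0, 0],
    ![0, 1, 2, 0, 0, 3, 3, 0, 2, 0, 0, 0, 0]]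

lemma col_ok : IsAcyclicColouring D 3 2 col := by
  intro i v h
  have key : ∀ (m : ZMod 3) (a b : Fin 13), D.Adj a b → col a ≠ m → col b ≠ m →
      pot m a < pot m b := by decide +kernel
  have miss : ∀ (i : ZMod 3) (j : ℕ), j < 2 → i + (j : ZMod 3) ≠ i + 2 := by
    intro i j hj
    interval_cases j <;> revert i <;> decide
  have step : ∀ a b : Fin 13, Relation.TransGen (fun a b => D.Adj a b ∧
      a ∈ {v | ∃ j : ℕ, j < 2 ∧ col v = i + (j : ZMod 3)} ∧
      b ∈ {v | ∃ j : ℕ, j < 2 ∧ col v = i + (j : ZMod 3)}) a b →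
      pot (i + 2) a < pot (i + 2) b := by
    intro a b hab
    have single : ∀ a b : Fin 13, (D.Adj a b ∧
        a ∈ {v | ∃ j : ℕ, j < 2 ∧ col v = i + (j : ZMod 3)} ∧
        b ∈ {v | ∃ j : ℕ, j < 2 ∧ col v = i + (j : ZMod 3)}) →
        pot (i + 2) a < pot (i + 2) b := by
      rintro a b ⟨h1, ⟨j, hj, hj'⟩, ⟨l, hl, hl'⟩⟩
      exact key _ a b h1 (by rw [hj']; exact miss i j hj) (by rw [hl']; exact miss i l hl)
    induction hab with
    | single h => exact single _ _ h
    | tail _ h ih => exact ih.trans (single _ _ h)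
  exact lt_irrefl _ (step v v h)

/-- **Theorem.** There is a finite loopless digraph of digirth `4` whose underlying graph has a
crossing-free straight-line drawing in the plane and whose star dichromatic number is exactly
`3/2 = (4 - 1) / (4 - 2)`. -/
theorem result : ∃ (V : Type) (_ : Fintype V) (D : Digraph V),
    (∀ v, ¬ D.Adj v v) ∧ StraightLinePlanar D ∧ HasDigirth D 4 ∧
      starDichromaticNumber D = ((4 : ℝ) - 1) / (4 - 2) := by
  refine ⟨Fin 13, inferInstance, D, no_loop, planar, digirth, ?_⟩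
  have hl : IsLeast (ratios D) (((4 : ℝ) - 1) / (4 - 2)) := by
    constructor
    · exact ⟨3, 2, by norm_num, by norm_num, by norm_num, col, col_ok⟩
    · rintro q ⟨k, d, hd, hdk, rfl, c, hc⟩
      by_contra hlt
      push Not at hlt
      have hd' : (0 : ℝ) < d := by exact_mod_cast hd
      rw [div_lt_iff₀ hd'] at hlt
      have hkd : (2 : ℝ) * k < 3 * d := by linarith
      have hkd' : 2 * k < 3 * d := by exact_mod_cast hkd
      exact lower (s := k - d) (hd.trans hdk) (by omega) (by omega) hc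
  exact hl.csInf_eq

end Pool.Agent.Results.MP_ff0133_co.DigirthFour
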